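import Pool.Agent.LE.StmtsQY

/-!
# BAL (squad LQY): the ballistic bound
-/

set_option autoImplicit false

open MeasureTheory ProbabilityTheory Function Filter

open scoped ENNReal BigOperators Topology NNReal ComplexOrder Matrix

noncomputable section

namespace Pool.Agent.LE.QY.H10

open Pool.Agent.Anderson hiding box mem_box card_box
open Pool.Agent.Loc Pool.Agent.Helper54.Bal

variable {d : ℕ}

theorem le_of_sq {a b : ℝ} (hb : 0 ≤ b) (h : a ^ 2 ≤ b ^ 2) : a ≤ b :=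
  le_of_not_gt fun hlt => by nlinarith

theorem norm_le_of_le {f h : L2 d} (H : ∀ y, ‖f y‖ ≤ ‖h y‖) : ‖f‖ ≤ ‖h‖ := by
  apply le_of_sq (norm_nonneg _)
  rw [L2.norm_sq, L2.norm_sq]
  refine Summable.tsum_le_tsum (fun y => ?_) (L2.summable_sq f) (L2.summable_sq h)
  have h1 := H y
  have h2 := norm_nonneg (f y)
  gcongr

/-- multiplication by a bounded real function -/
def wm (w : Site d → ℝ) (M : ℝ) (hw : ∀ y, |w y| ≤ M) (f : L2 d) : L2 d :=
  mulOp (fun y => ((w y : ℝ) : ℂ)) M (fun y => by rw [Complex.norm_real]; exact hw y) f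

theorem wm_apply (w : Site d → ℝ) (M : ℝ) (hw : ∀ y, |w y| ≤ M) (f : L2 d) (y : Site d) :
    wm w M hw f y = ((w y : ℝ) : ℂ) * f y := rfl

theorem norm_wm_apply (w : Site d → ℝ) (M : ℝ) (hw : ∀ y, |w y| ≤ M) (f : L2 d) (y : Site d) :
    ‖wm w M hw f y‖ = |w y| * ‖f y‖ := by
  rw [wm_apply, norm_mul, Complex.norm_real, Real.norm_eq_abs]

/-- the commutator bound -/
theorem comm_bd {V : Site d → ℝ} {z : ℂ} (hz : z.im ≠ 0) (x : Site d) (w W : Site d → ℝ)
    (Mw MW : ℝ) (hw : ∀ y, |w y| ≤ Mw) (hW : ∀ y, |W y| ≤ MW) (hx : w x = 0)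
    (hp : ∀ y (j : Fin d), |w (y + Pi.single j 1) - w y| ≤ |W (y + Pi.single j 1)|)
    (hm : ∀ y (j : Fin d), |w (y - Pi.single j 1) - w y| ≤ |W (y - Pi.single j 1)|) :
    ‖wm w Mw hw (G V z (del x))‖ ≤
      |z.im|⁻¹ * (2 * d * ‖wm W MW hW (G V z (del x))‖) := by
  set g := G V z (del x) with hg
  have hpb : ∀ (j : Fin d) (y : Site d), |w (y + Pi.single j 1) - w y| ≤ 2 * Mw := by
    intro j y
    have h1 := abs_sub (w (y + Pi.single j 1)) (w y)
    have h2 := hw (y + Pi.single j 1)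
    have h3 := hw y
    linarith
  have hmb : ∀ (j : Fin d) (y : Site d), |w (y - Pi.single j 1) - w y| ≤ 2 * Mw := by
    intro j y
    have h1 := abs_sub (w (y - Pi.single j 1)) (w y)
    have h2 := hw (y - Pi.single j 1)
    have h3 := hw y
    linarith
  let A : Fin d → L2 d := fun j => wm (fun y => w (y + Pi.single j 1) - w y) (2 * Mw) (hpb j)
    (shift (Pi.single j 1) g)
  let B : Fin d → L2 d := fun j => wm (fun y => w (y - Pi.single j 1) - w y) (2 * Mw) (hmb j)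
    (shift (-Pi.single j 1) g)
  let r : L2 d := ∑ j, (A j + B j)
  have hA : ∀ j, ‖A j‖ ≤ ‖wm W MW hW g‖ := by
    intro j
    rw [← (shift (Pi.single j 1)).norm_map (wm W MW hW g)]
    apply norm_le_of_le
    intro y
    rw [shift_apply, norm_wm_apply, norm_wm_apply, shift_apply]
    exact mul_le_mul_of_nonneg_right (hp y j) (norm_nonneg _)
  have hB : ∀ j, ‖B j‖ ≤ ‖wm W MW hW g‖ := by
    intro j
    rw [← (shift (-Pi.single j 1)).norm_map (wm W MW hW g)]
    apply norm_le_of_le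
    intro y
    rw [shift_apply, norm_wm_apply, norm_wm_apply, shift_apply]
    have h1 := hm y j
    rw [sub_eq_add_neg y] at h1
    exact mul_le_mul_of_nonneg_right (by simpa only [sub_eq_add_neg] using h1) (norm_nonneg _)
  have hr : ‖r‖ ≤ 2 * d * ‖wm W MW hW g‖ := by
    calc ‖r‖ ≤ ∑ j, ‖A j + B j‖ := norm_sum_le _ _
      _ ≤ ∑ _j : Fin d, (‖wm W MW hW g‖ + ‖wm W MW hW g‖) :=
          Finset.sum_le_sum fun j _ => (norm_add_le _ _).trans (add_le_add (hA j) (hB j))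
      _ = 2 * d * ‖wm W MW hW g‖ := by
          rw [Finset.sum_const, Finset.card_univ, Fintype.card_fin, nsmul_eq_mul]
          ring
  have hG : wm w Mw hw g = G V z r := by
    apply G_unique hz
    intro y
    have e1 := G_eq (V := V) hz (del x) y
    rw [← hg] at e1
    have e2 : lap (wm w Mw hw g) y = ((w y : ℝ) : ℂ) * lap g y + r y := by
      have e0 : r y = ∑ j, (A j y + B j y) := by
        show (∑ j, (A j + B j) : L2 d) y = _
        rw [coe_sum_apply]
        rfl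
      unfold lap
      rw [e0, Finset.mul_sum, ← Finset.sum_add_distrib]
      refine Finset.sum_congr rfl fun j _ => ?_
      show ((w (y + Pi.single j 1) : ℝ) : ℂ) * g (y + Pi.single j 1) +
        ((w (y - Pi.single j 1) : ℝ) : ℂ) * g (y - Pi.single j 1) =
        ((w y : ℝ) : ℂ) * (g (y + Pi.single j 1) + g (y - Pi.single j 1)) +
        (((w (y + Pi.single j 1) - w y : ℝ) : ℂ) * g (y + Pi.single j 1) +
        ((w (y - Pi.single j 1) - w y : ℝ) : ℂ) * g (y + -Pi.single j 1))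
      rw [← sub_eq_add_neg]
      push_cast
      ring
    rw [e2, wm_apply]
    have e5 : ((w y : ℝ) : ℂ) * lap g y + r y + ((V y : ℂ) - z) * (((w y : ℝ) : ℂ) * g y) =
        ((w y : ℝ) : ℂ) * (lap g y + ((V y : ℂ) - z) * g y) + r y := by ring
    rw [e5, e1, del_apply]
    by_cases hy : y = x
    · subst hy
      simp [hx]
    · simp [hy]
  rw [hG]
  refine ((isRes_G V).norm_le' hz r).trans ?_
  exact mul_le_mul_of_nonneg_left hr (by positivity)

theorem sd_self (x : Site d) : sd x x = 0 := by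
  unfold sd
  simp

theorem sd_add_le (x y : Site d) (j : Fin d) (s : ℤ) (hs : s.natAbs = 1) :
    sd x (y + Pi.single j s) ≤ sd x y + 1 := by
  unfold sd
  apply Finset.sup_le
  intro i _
  have h1 : (x i - y i).natAbs ≤ Finset.univ.sup fun i => (x i - y i).natAbs :=
    Finset.le_sup (f := fun i => (x i - y i).natAbs) (Finset.mem_univ i)
  refine le_trans ?_ (Nat.add_le_add_right h1 1)
  rw [Pi.add_apply]
  by_cases hij : i = j
  · subst hij
    rw [Pi.single_eq_same]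
    omega
  · rw [Pi.single_eq_of_ne hij]
    omega

/-- neighbours -/
theorem sd_nb (x y : Site d) (j : Fin d) :
    |(sd x (y + Pi.single j 1) : ℝ) - sd x y| ≤ 1 ∧
      |(sd x (y - Pi.single j 1) : ℝ) - sd x y| ≤ 1 := by
  have h1 := sd_add_le x y j 1 (by norm_num)
  have h2 := sd_add_le x (y + Pi.single j 1) j (-1) (by norm_num)
  have h3 := sd_add_le x y j (-1) (by norm_num)
  have h4 := sd_add_le x (y - Pi.single j 1) j 1 (by norm_num)
  have e1 : y + Pi.single j 1 + Pi.single j (-1) = y := by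
    rw [add_assoc, ← Pi.single_add]
    simp
  have e2 : y + Pi.single j (-1) = y - Pi.single j 1 := by
    rw [Pi.single_neg, sub_eq_add_neg]
  have e3 : y - Pi.single j 1 + Pi.single j 1 = y := by
    rw [sub_add_cancel]
  rw [e1] at h2
  rw [e2] at h3
  rw [e3] at h4
  have a1 : (sd x (y + Pi.single j 1) : ℝ) ≤ sd x y + 1 := by exact_mod_cast h1
  have a2 : (sd x y : ℝ) ≤ sd x (y + Pi.single j 1) + 1 := by exact_mod_cast h2
  have a3 : (sd x (y - Pi.single j 1) : ℝ) ≤ sd x y + 1 := by exact_mod_cast h3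
  have a4 : (sd x y : ℝ) ≤ sd x (y - Pi.single j 1) + 1 := by exact_mod_cast h4
  exact ⟨abs_le.2 ⟨by linarith, by linarith⟩, abs_le.2 ⟨by linarith, by linarith⟩⟩

/-- the truncated distance -/
def wn (x : Site d) (n : ℕ) (y : Site d) : ℝ := min (sd x y : ℝ) n

theorem wn_nonneg (x : Site d) (n : ℕ) (y : Site d) : 0 ≤ wn x n y := by
  unfold wn
  positivity

theorem wn_le (x : Site d) (n : ℕ) (y : Site d) : wn x n y ≤ n := min_le_right _ _

theorem wn_abs (x : Site d) (n : ℕ) (y : Site d) : |wn x n y| ≤ n := by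
  rw [abs_of_nonneg (wn_nonneg x n y)]
  exact wn_le x n y

theorem wn_self (x : Site d) (n : ℕ) : wn x n x = 0 := by
  unfold wn
  rw [sd_self]
  simp

theorem wn_sub {x y y' : Site d} (n : ℕ) (h : |(sd x y' : ℝ) - sd x y| ≤ 1) :
    |wn x n y' - wn x n y| ≤ 1 := by
  unfold wn
  have h2 := abs_min_sub_min_le_max (sd x y' : ℝ) (n : ℝ) (sd x y : ℝ) (n : ℝ)
  rw [sub_self, abs_zero, max_eq_left (abs_nonneg _)] at h2
  exact h2.trans h

theorem wn_sq_sub {x y y' : Site d} (n : ℕ) (h : |(sd x y' : ℝ) - sd x y| ≤ 1) :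
    |wn x n y' ^ 2 - wn x n y ^ 2| ≤ |2 * wn x n y' + 1| := by
  have h1 := wn_sub n h
  have h2 := wn_nonneg x n y
  have h3 := wn_nonneg x n y'
  rw [abs_le] at h1
  rw [abs_of_nonneg (by linarith : (0 : ℝ) ≤ 2 * wn x n y' + 1), abs_le]
  constructor <;> nlinarith

theorem bal : BalStmt := by
  intro d hd
  have hd1 : (1 : ℝ) ≤ d := by exact_mod_cast hd
  refine ⟨(2 * d * (4 * d + 1)) ^ 2, ?_, ?_⟩
  · have h1 : (1 : ℝ) ≤ 2 * d * (4 * d + 1) := by nlinarith
    nlinarith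
  intro V E η x hη hη1
  set z : ℂ := ⟨E, η⟩ with hzdef
  have hz : z.im ≠ 0 := hη.ne'
  have hzi : |z.im|⁻¹ = η⁻¹ := by
    show |η|⁻¹ = η⁻¹
    rw [abs_of_pos hη]
  set g := G V z (del x) with hg
  have hgn : ‖g‖ ≤ η⁻¹ := by
    have := (isRes_G V).norm_le' hz (del x)
    rwa [norm_del, mul_one, hzi] at this
  have hηi : 0 < η⁻¹ := by positivity
  have hηi1 : 1 ≤ η⁻¹ := (one_le_inv₀ hη).2 hη1
  -- the first commutator
  have h1 : ∀ n : ℕ, ‖wm (wn x n) n (wn_abs x n) g‖ ≤ 2 * d * η⁻¹ ^ 2 := by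
    intro n
    have h := comm_bd (V := V) hz x (wn x n) (fun _ => 1) n 1 (wn_abs x n)
      (fun _ => by simp) (wn_self x n)
      (fun y j => (wn_sub n (sd_nb x y j).1).trans (le_abs_self _))
      (fun y j => (wn_sub n (sd_nb x y j).2).trans (le_abs_self _))
    rw [← hg, hzi] at h
    have h2 : ‖wm (fun _ => (1 : ℝ)) 1 (fun _ => by simp) g‖ ≤ ‖g‖ := by
      apply norm_le_of_le
      intro y
      rw [norm_wm_apply, abs_one, one_mul]
    calc ‖wm (wn x n) n (wn_abs x n) g‖ ≤ _ := h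
      _ ≤ η⁻¹ * (2 * d * η⁻¹) := by
          have h3 := h2.trans hgn
          gcongr
      _ = 2 * d * η⁻¹ ^ 2 := by ring
  -- the second commutator
  have h2 : ∀ n : ℕ, ‖wm (fun y => wn x n y ^ 2) ((n : ℝ) ^ 2) (fun y => by
      rw [abs_pow]
      exact pow_le_pow_left₀ (abs_nonneg _) (wn_abs x n y) 2) g‖ ≤
      2 * d * (4 * d + 1) * η⁻¹ ^ 3 := by
    intro n
    have hWb : ∀ y : Site d, |2 * wn x n y + 1| ≤ 2 * n + 1 := by
      intro y
      have h3 := wn_nonneg x n y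
      have h4 := wn_le x n y
      rw [abs_of_nonneg (by linarith)]
      linarith
    have h := comm_bd (V := V) hz x (fun y => wn x n y ^ 2) (fun y => 2 * wn x n y + 1)
      ((n : ℝ) ^ 2) (2 * n + 1) (fun y => by
        rw [abs_pow]
        exact pow_le_pow_left₀ (abs_nonneg _) (wn_abs x n y) 2) hWb
      (by show wn x n x ^ 2 = 0; rw [wn_self]; ring)
      (fun y j => wn_sq_sub n (sd_nb x y j).1)
      (fun y j => wn_sq_sub n (sd_nb x y j).2)
    rw [← hg, hzi] at h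
    have h3 : wm (fun y => 2 * wn x n y + 1) (2 * n + 1) hWb g =
        (2 : ℂ) • wm (wn x n) n (wn_abs x n) g + g := by
      ext y
      rw [lp.coeFn_add, Pi.add_apply, lp.coeFn_smul, Pi.smul_apply, wm_apply, wm_apply,
        smul_eq_mul]
      push_cast
      ring
    have h4 : ‖wm (fun y => 2 * wn x n y + 1) (2 * n + 1) hWb g‖ ≤
        2 * (2 * d * η⁻¹ ^ 2) + η⁻¹ := by
      rw [h3]
      refine (norm_add_le _ _).trans (add_le_add ?_ hgn)
      rw [norm_smul]
      have h5 : ‖(2 : ℂ)‖ = 2 := by simp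
      rw [h5]
      exact mul_le_mul_of_nonneg_left (h1 n) (by norm_num)
    calc _ ≤ _ := h
      _ ≤ η⁻¹ * (2 * d * (2 * (2 * d * η⁻¹ ^ 2) + η⁻¹)) := by gcongr
      _ ≤ η⁻¹ * (2 * d * (2 * (2 * d * η⁻¹ ^ 2) + η⁻¹ ^ 2)) := by
          have h6 : η⁻¹ ≤ η⁻¹ ^ 2 := by nlinarith
          gcongr
      _ = 2 * d * (4 * d + 1) * η⁻¹ ^ 3 := by ring
  -- finite sums
  have h3 : ∀ s : Finset (Site d), ∑ y ∈ s, (sd x y : ℝ) ^ 4 * ‖g y‖ ^ 2 ≤
      (2 * d * (4 * d + 1)) ^ 2 / η ^ 6 := by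
    intro s
    set n : ℕ := s.sup (sd x) with hn
    have h4 : ∀ y ∈ s, wn x n y = sd x y := by
      intro y hy
      unfold wn
      apply min_eq_left
      have : sd x y ≤ n := Finset.le_sup (f := sd x) hy
      exact_mod_cast this
    have h5 := h2 n
    set gg := wm (fun y => wn x n y ^ 2) ((n : ℝ) ^ 2) (fun y => by
      rw [abs_pow]
      exact pow_le_pow_left₀ (abs_nonneg _) (wn_abs x n y) 2) g with hgg
    have h6 : ∑ y ∈ s, (sd x y : ℝ) ^ 4 * ‖g y‖ ^ 2 = ∑ y ∈ s, ‖gg y‖ ^ 2 := by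
      refine Finset.sum_congr rfl fun y hy => ?_
      rw [hgg, norm_wm_apply, h4 y hy, abs_of_nonneg (by positivity)]
      ring
    rw [h6]
    calc ∑ y ∈ s, ‖gg y‖ ^ 2 ≤ ∑' y, ‖gg y‖ ^ 2 :=
          (L2.summable_sq gg).sum_le_tsum s (fun y _ => by positivity)
      _ = ‖gg‖ ^ 2 := (L2.norm_sq gg).symm
      _ ≤ (2 * d * (4 * d + 1) * η⁻¹ ^ 3) ^ 2 := by gcongr
      _ = (2 * d * (4 * d + 1)) ^ 2 / η ^ 6 := by
          rw [div_eq_mul_inv, ← inv_pow]
          ring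
  have hnn : ∀ y : Site d, 0 ≤ (sd x y : ℝ) ^ 4 * ‖g y‖ ^ 2 := fun y => by positivity
  have hsum : Summable (fun y : Site d => (sd x y : ℝ) ^ 4 * ‖g y‖ ^ 2) :=
    summable_of_sum_le hnn h3
  exact ⟨hsum, hsum.tsum_le_of_sum_le h3⟩

end Pool.Agent.LE.QY.H10
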